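import Mathlib
import Pool.Agent.Q174.LiouDiam

/-!
# A solution of the Liouville equation in the plane with infinite conformal diameter

There is an entire function `F` with `F' = b exp(cos z)` such that for
`u = Re (log b + cos z) - log cosh (Im F)`, a solution of `Δu + e^{2u} = 0` on the whole plane, the
metric `e^{2u} |dz|²` has infinite diameter. So the diameters of solutions are not bounded above.
-/

set_option autoImplicit false

open MeasureTheory Laplacian InnerProductSpace Filter Topology Set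

namespace Pool.Agent.Results.MP_ae50c7_an.InfiniteDiameter

/-- `u` is a (classical, global) solution of the Liouville equation `Δu + e^{2u} = 0` on the plane
`ℝ² = ℂ`. -/
def IsSolution (u : ℂ → ℝ) : Prop :=
  ContDiff ℝ 2 u ∧ ∀ z, Δ u z + Real.exp (2 * u z) = 0

/-- `γ` is a piecewise `C¹` curve on `[0, 1]`: it is continuous, and for some partition
`0 = t_0 ≤ t_1 ≤ … ≤ t_n = 1` it is `C¹` on each `[t_i, t_{i+1}]`. -/
def PiecewiseC1 (γ : ℝ → ℂ) : Prop :=
  ContinuousOn γ (Icc 0 1) ∧ ∃ (n : ℕ) (t : ℕ → ℝ), Monotone t ∧ t 0 = 0 ∧ t n = 1 ∧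
    ∀ i < n, ContDiffOn ℝ 1 γ (Icc (t i) (t (i + 1)))

/-- The length of `γ` in the metric `e^{2u} |dz|²`. -/
noncomputable def len (u : ℂ → ℝ) (γ : ℝ → ℂ) : ENNReal :=
  ∫⁻ t in Icc (0 : ℝ) 1, ENNReal.ofReal (Real.exp (u (γ t)) * ‖deriv γ t‖)

/-- The distance of `x` and `y`: the infimum of the lengths of the piecewise `C¹` curves from `x`
to `y`. -/
noncomputable def dist (u : ℂ → ℝ) (x y : ℂ) : ENNReal :=
  ⨅ (γ : ℝ → ℂ) (_ : PiecewiseC1 γ ∧ γ 0 = x ∧ γ 1 = y), len u γ

/-- The diameter of the plane. -/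
noncomputable def diam (u : ℂ → ℝ) : ENNReal := ⨆ (x : ℂ) (y : ℂ), dist u x y

/-- There is a solution of infinite diameter; hence no constant `C` bounds the diameter of all
solutions by `C π`. -/
theorem result :
    (∃ u : ℂ → ℝ, IsSolution u ∧ diam u = ⊤) ∧
    ¬ ∃ C : ℝ, 20 ≤ C ∧ ∀ u : ℂ → ℝ, IsSolution u →
      ENNReal.ofReal Real.pi ≤ diam u ∧ diam u ≤ ENNReal.ofReal (C * Real.pi) := by
  have main : ∃ u : ℂ → ℝ, IsSolution u ∧ diam u = ⊤ := by
    obtain ⟨D⟩ := Q174.LiouDiam.exists_dat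
    refine ⟨D.u, ⟨D.contDiff_u, D.laplacian_u⟩, ?_⟩
    have key : ∀ k : ℕ, (k : ENNReal) * ENNReal.ofReal D.δ ≤ diam D.u := by
      intro k
      refine le_trans ?_ (le_iSup₂ (f := fun x y => dist D.u x y) (Real.pi : ℂ)
        ((Real.pi : ℂ) + 2 * Real.pi * k))
      refine le_iInf₂ fun γ hγ => ?_
      obtain ⟨hγ, h0, h1⟩ := hγ
      obtain ⟨S, hS, hd⟩ := Q174.LiouDiam.PiecewiseC1.diff hγ
      obtain ⟨t, ht, -, hle⟩ := D.passage hγ.1 hS hd k (by simp [h0]) (by simp [h1]) k le_rfl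
      refine hle.trans ?_
      exact lintegral_mono_set (Ioc_subset_Icc_self.trans (Icc_subset_Icc_right ht.2))
    refine ENNReal.eq_top_of_forall_nnreal_le fun r => ?_
    have hδ : ENNReal.ofReal D.δ ≠ 0 := by
      rw [Ne, ENNReal.ofReal_eq_zero, not_le]; exact D.δ_pos
    obtain ⟨n, hn⟩ := ENNReal.exists_nat_mul_gt hδ (ENNReal.coe_ne_top (r := r))
    exact hn.le.trans (key n)
  refine ⟨main, ?_⟩
  rintro ⟨C, -, h⟩
  obtain ⟨u, hu, hd⟩ := main
  have := (h u hu).2
  rw [hd, top_le_iff] at this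
  exact ENNReal.ofReal_ne_top this

end Pool.Agent.Results.MP_ae50c7_an.InfiniteDiameter
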